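import Pool.Agent.H92.ND.TargetsB

set_option autoImplicit false

namespace Pool.Agent.H23.ND

open MvPolynomial SC Pool.Agent.H27.LV Pool.Agent.H84.SM Pool.Agent.H84.ND Pool.Agent.H92.ND

private lemma sqd {A : Type} [CommRing A] [IsDomain A] [UniqueFactorizationMonoid A] {G Δ : A}
    (hsq : Squarefree G) (h : ∀ P, Irreducible P → P ∣ G → P ∣ Δ) : G ∣ Δ := by
  induction G using UniqueFactorizationMonoid.induction_on_prime with
  | h₁ => exact (not_squarefree_zero hsq).elim
  | h₂ x hx => exact hx.dvd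
  | h₃ a p ha hp ih =>
    have h1 := squarefree_mul_iff.1 hsq
    exact h1.1.mul_dvd (h p hp.irreducible (dvd_mul_right p a))
      (ih h1.2.2 fun P hP hPa => h P hP (hPa.mul_left p))

theorem pf_DTD (hGRP : Pool.Agent.H92.ND.T_GRP) : Pool.Agent.H92.ND.T_DTD := by
  intro k _ _ G d hd hG hsq R R' D D' hR hR'
  have hE : dp x3 (g3 G) = C (d : k) * G := by
    unfold dp x3 g3
    rw [hG.sum_X_mul_pderiv, nsmul_eq_mul, map_natCast]
  have hid : ∀ l, dt R' x3 R * g3 G l = dp R' (g3 G) * cr x3 R l + dp x3 (g3 G) * cr R R' l +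
      dp R (g3 G) * cr R' x3 l := by
    intro l
    fin_cases l
    all_goals
      simp [dt, dp, cr, Fin.sum_univ_three]
      ring
  refine sqd hsq fun P hP hPG => ?_
  obtain ⟨l, hl⟩ := hGRP k G d hd hG hsq P hP
  have h1 : P ∣ dt R' x3 R * g3 G l := by
    rw [hid l, hR, hR', hE]
    exact dvd_add (dvd_add ((hPG.mul_left _).mul_right _) ((hPG.mul_left _).mul_right _))
      ((hPG.mul_left _).mul_right _)
  exact (hP.prime.2.2 _ _ h1).resolve_right hl

end Pool.Agent.H23.ND
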