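import Pool.Agent.H92.ND.TargetsB

set_option autoImplicit false

namespace Pool.Agent.H23.ND

open MvPolynomial SC Pool.Agent.H27.LV Pool.Agent.H84.SM Pool.Agent.H84.ND Pool.Agent.H92.ND

private lemma tdp {k : Type} [Field k] {P : A3 k} {l : Fin 3} (h : pderiv l P ≠ 0) :
    (pderiv l P).totalDegree < P.totalDegree := by
  classical
  obtain ⟨m, hm, hd⟩ : ∃ m ∈ (pderiv l P).support,
      (pderiv l P).totalDegree = m.sum fun _ e => e := by
    obtain ⟨m, hm, hd⟩ := Finset.exists_mem_eq_sup (pderiv l P).support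
      (support_nonempty.2 h) (fun s => s.sum fun _ e => e)
    exact ⟨m, hm, hd⟩
  rw [hd]
  rw [mem_support_iff, coeff_pderiv] at hm
  have h1 : coeff (m + Finsupp.single l 1) P ≠ 0 := fun h0 => hm (by rw [h0, zero_mul])
  have h2 := le_totalDegree (mem_support_iff.2 h1)
  have h3 : ((m + Finsupp.single l 1).sum fun _ e => e) = (m.sum fun _ e => e) + 1 := by
    rw [Finsupp.sum_add_index' (fun _ => rfl) (fun _ _ _ => rfl), Finsupp.sum_single_index rfl]
  omega

private lemma cst {k : Type} [Field k] [CharZero k] {P : A3 k} (h : ∀ l, pderiv l P = 0) :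
    ∃ a : k, P = C a := by
  classical
  refine ⟨coeff 0 P, ?_⟩
  ext m
  rw [coeff_C]
  split_ifs with hm
  · rw [← hm]
  · obtain ⟨l, hl⟩ : ∃ l, m l ≠ 0 := by
      by_contra hc
      push Not at hc
      exact hm (Finsupp.ext fun l => (hc l).symm)
    have h1 : m = (m - Finsupp.single l 1) + Finsupp.single l 1 := by
      rw [tsub_add_cancel_of_le]
      rw [Finsupp.single_le_iff]
      omega
    have h2 := congrArg (coeff (m - Finsupp.single l 1)) (h l)
    rw [coeff_pderiv, ← h1, coeff_zero] at h2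
    rcases mul_eq_zero.1 h2 with h3 | h3
    · exact h3
    · exfalso
      have h4 : ((((m - Finsupp.single l 1 : Fin 3 →₀ ℕ) l) + 1 : ℕ) : k) ≠ 0 :=
        Nat.cast_ne_zero.2 (by omega)
      apply h4
      push_cast
      exact h3

theorem pf_GRP : Pool.Agent.H92.ND.T_GRP := by
  intro k _ _ G d hd hG hsq P hP
  by_contra hc
  push Not at hc
  have hPp : Prime P := hP.prime
  have hdk : (d : k) ≠ 0 := Nat.cast_ne_zero.2 (by omega)
  have hPG : P ∣ G := by
    have h1 : P ∣ ∑ i, X i * pderiv i G :=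
      Finset.dvd_sum fun i _ => (hc i).mul_left _
    rw [hG.sum_X_mul_pderiv] at h1
    have h2 : P ∣ C ((d : k)⁻¹) * (d • G) := h1.mul_left _
    have h3 : C ((d : k)⁻¹) * (d • G) = G := by
      rw [nsmul_eq_mul, ← mul_assoc, ← map_natCast (C : k →+* A3 k), ← map_mul,
        inv_mul_cancel₀ hdk, map_one, one_mul]
    rwa [h3] at h2
  obtain ⟨Q, hQ⟩ := hPG
  have hPQ : ¬ P ∣ Q := by
    rintro ⟨R, hR⟩
    exact hP.1 (hsq P ⟨R, by rw [hQ, hR, mul_assoc]⟩)
  have hdv : ∀ l, P ∣ pderiv l P := by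
    intro l
    have h1 := hc l
    rw [hQ, Derivation.leibniz, smul_eq_mul, smul_eq_mul] at h1
    have h2 : P ∣ Q * pderiv l P := (dvd_add_right (dvd_mul_right P _)).1 h1
    exact (hPp.2.2 _ _ h2).resolve_left hPQ
  have hz : ∀ l, pderiv l P = 0 := by
    intro l
    by_contra hne
    have h1 := totalDegree_le_of_dvd_of_isDomain (hdv l) hne
    have h2 := tdp hne
    omega
  obtain ⟨a, ha⟩ := cst hz
  have ha0 : a ≠ 0 := by
    rintro rfl
    exact hP.ne_zero (by rw [ha, map_zero])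
  apply hP.1
  rw [ha]
  exact (isUnit_iff_ne_zero.2 ha0).map C

end Pool.Agent.H23.ND
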