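import Pool.Agent.H92.ND.TargetsB

set_option autoImplicit false

namespace Pool.Agent.H23.ND

open MvPolynomial SC Pool.Agent.H27.LV Pool.Agent.H84.SM Pool.Agent.H84.ND Pool.Agent.H92.ND

private lemma hcm {k : Type} [Field k] (f g : A3 k) (N m : ℕ) (hg : g.IsHomogeneous m) :
    homogeneousComponent N (f * g) = if m ≤ N then homogeneousComponent (N - m) f * g else 0 := by
  classical
  have h1 : ∀ i, homogeneousComponent N (homogeneousComponent i f * g) =
      if i + m = N then homogeneousComponent i f * g else 0 := by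
    intro i
    have h2 : homogeneousComponent i f * g ∈ homogeneousSubmodule (Fin 3) k (i + m) :=
      (mem_homogeneousSubmodule _ _).2 ((homogeneousComponent_isHomogeneous i f).mul hg)
    rw [homogeneousComponent_of_mem h2]
    by_cases h : i + m = N
    · rw [if_pos h, if_pos h.symm]
    · rw [if_neg h, if_neg (Ne.symm h)]
  have h3 : homogeneousComponent N (f * g) =
      ∑ i ∈ Finset.range (f.totalDegree + 1),
        if i + m = N then homogeneousComponent i f * g else 0 := by
    conv_lhs => rw [← sum_homogeneousComponent f]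
    rw [Finset.sum_mul, map_sum]
    exact Finset.sum_congr rfl fun i _ => h1 i
  rw [h3]
  split_ifs with h
  · by_cases hi : N - m ∈ Finset.range (f.totalDegree + 1)
    · rw [Finset.sum_eq_single_of_mem _ hi]
      · rw [if_pos (by omega)]
      · intro i _ hne
        rw [if_neg (by omega)]
    · rw [Finset.sum_eq_zero]
      · rw [homogeneousComponent_eq_zero _ _ (by rw [Finset.mem_range] at hi; omega), zero_mul]
      · intro i hi'
        rw [if_neg]
        rintro rfl
        apply hi
        rw [Nat.add_sub_cancel]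
        exact hi'
  · apply Finset.sum_eq_zero
    intro i _
    rw [if_neg (by omega)]

theorem pf_HDE (hNCH : Pool.Agent.H84.ND.T_NCH) : Pool.Agent.H92.ND.T_HDE := by
  classical
  intro k _ _ _ G d hd hG s hs
  obtain ⟨hs0, hsg⟩ := hs.sing
  obtain ⟨j, hj⟩ : ∃ j, s j ≠ 0 := by
    by_contra hc
    push Not at hc
    exact hs0 (funext hc)
  obtain ⟨h, r1, r2, hN⟩ := hNCH k G d hd hG s hs j hj
  have hdk : (d : k) ≠ 0 := Nat.cast_ne_zero.2 (by omega)
  obtain ⟨ρ, hρ⟩ : ∃ ρ, eval s (homogeneousComponent ρ h) ≠ 0 := by
    by_contra hc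
    push Not at hc
    apply hN.hs
    rw [← sum_homogeneousComponent h, map_sum]
    exact Finset.sum_eq_zero fun i _ => hc i
  have hev : ∀ r ∈ Ideal.span {pderiv (j + 1) G, pderiv (j + 2) G},
      eval s (homogeneousComponent (ρ + 1) r) = 0 := by
    intro r hr
    obtain ⟨a, b, hab⟩ := Ideal.mem_span_pair.1 hr
    rw [← hab, map_add, hcm a _ _ _ hG.pderiv, hcm b _ _ _ hG.pderiv, map_add]
    split_ifs
    · rw [map_mul, map_mul, hsg, hsg, mul_zero, mul_zero, add_zero]
    · simp
  have heq : C (d : k) * homogeneousComponent ρ h * G =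
      pderiv (j + 1) G * homogeneousComponent (ρ + 1) r1 +
        pderiv (j + 2) G * homogeneousComponent (ρ + 1) r2 := by
    have h1 := congrArg (homogeneousComponent (ρ + d)) hN.eq
    rw [hcm _ _ _ _ hG, map_add, mul_comm (pderiv (j + 1) G) r1, mul_comm (pderiv (j + 2) G) r2,
      hcm _ _ _ _ hG.pderiv, hcm _ _ _ _ hG.pderiv, if_pos (by omega), if_pos (by omega),
      if_pos (by omega), Nat.add_sub_cancel, show ρ + d - (d - 1) = ρ + 1 by omega,
      homogeneousComponent_C_mul] at h1
    rw [h1]
    ring
  refine ⟨ρ, fun i => if i = j then 0 else if i = j + 1 then homogeneousComponent (ρ + 1) r1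
    else homogeneousComponent (ρ + 1) r2, C (d : k) * homogeneousComponent ρ h, ?_, ?_, ?_, ?_, ?_⟩
  · intro i
    split_ifs
    · exact isHomogeneous_zero _ _ _
    · exact homogeneousComponent_isHomogeneous _ _
    · exact homogeneousComponent_isHomogeneous _ _
  · exact (homogeneousComponent_isHomogeneous ρ h).C_mul _
  · rw [heq]
    unfold dp g3
    fin_cases j
    all_goals
      simp [Fin.sum_univ_three]
      try ring
  · intro i
    split_ifs
    · exact map_zero _
    · exact hev _ hN.m1
    · exact hev _ hN.m2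
  · rw [map_mul, eval_C]
    exact mul_ne_zero hdk hρ

end Pool.Agent.H23.ND
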