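import Pool.Agent.H92.ND.TargetsB

set_option autoImplicit false

namespace Pool.Agent.H23.ND

open MvPolynomial SC Pool.Agent.H27.LV Pool.Agent.H84.SM Pool.Agent.H84.ND Pool.Agent.H92.ND

private lemma hom_line {k A : Type} [Field k] [CommRing A] [Algebra k A] (a : Fin 3 → k) (Z : A)
    (r : ℕ) (f : A3 k) (hf : f.IsHomogeneous r) :
    aeval (fun i => algebraMap k A (a i) * Z) f = algebraMap k A (eval a f) * Z ^ r := by
  classical
  rw [aeval_def, eval₂_eq', eval_eq', map_sum, Finset.sum_mul]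
  refine Finset.sum_congr rfl fun m hm => ?_
  have hd : ∑ i, m i = r := by
    have h1 := hf (mem_support_iff.1 hm)
    rw [← h1, Finsupp.weight_apply, Finsupp.sum_fintype]
    · simp
    · intro i
      simp
  simp only [mul_pow]
  rw [Finset.prod_mul_distrib, Finset.prod_pow_eq_pow_sum, hd, map_mul, map_prod]
  simp only [map_pow]
  ring

theorem pf_IVA : Pool.Agent.H92.ND.T_IVA := by
  intro k _ s hs r f hf h0
  obtain ⟨m, hm⟩ : ∃ m, s m ≠ 0 := by
    by_contra hc
    push Not at hc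
    exact hs (funext hc)
  rw [← Ideal.Quotient.eq_zero_iff_mem]
  have h1 : ∀ g : A3 k, Ideal.Quotient.mk (Is s) g =
      aeval (fun i => Ideal.Quotient.mk (Is s) (X i)) g := by
    intro g
    have h2 : (Ideal.Quotient.mkₐ k (Is s)) =
        aeval (fun i => Ideal.Quotient.mk (Is s) (X i : A3 k)) := by
      refine algHom_ext fun i => ?_
      rw [aeval_X]
      rfl
    rw [← h2]
    rfl
  have h3 : ∀ i, Ideal.Quotient.mk (Is s) (X i : A3 k) =
      algebraMap k (A3 k ⧸ Is s) (s i) *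
        Ideal.Quotient.mk (Is s) (C ((s m)⁻¹) * X m : A3 k) := by
    intro i
    have h4 : algebraMap k (A3 k ⧸ Is s) (s i) = Ideal.Quotient.mk (Is s) (C (s i)) := rfl
    rw [h4, ← map_mul, Ideal.Quotient.eq]
    have h5 : (X i - C (s i) * (C ((s m)⁻¹) * X m) : A3 k) =
        C ((s m)⁻¹) * (C (s m) * X i - C (s i) * X m) := by
      rw [mul_sub, ← mul_assoc (C ((s m)⁻¹)) (C (s m)), ← map_mul, inv_mul_cancel₀ hm, map_one,
        one_mul]
      ring
    rw [h5]
    exact Ideal.mul_mem_left _ _ (Ideal.subset_span ⟨m, i, rfl⟩)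
  rw [h1]
  have h6 : (fun i => Ideal.Quotient.mk (Is s) (X i : A3 k)) = fun i =>
      algebraMap k (A3 k ⧸ Is s) (s i) *
        Ideal.Quotient.mk (Is s) (C ((s m)⁻¹) * X m : A3 k) := funext h3
  rw [h6, hom_line s _ r f hf, h0, map_zero, zero_mul]

end Pool.Agent.H23.ND
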